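import Mathlib

/-!
Wilson primes of order `n`: two orders of the same prime.
-/

set_option autoImplicit false

namespace Pool.Agent.Helper77K9.WP

open Finset Nat Polynomial

/-- `p` is a Wilson prime of order `n`. -/
def IsW (n p : ℕ) : Prop :=
  p.Prime ∧ 1 ≤ n ∧ n ≤ p ∧ (p : ℤ) ^ 2 ∣ ((n - 1)! : ℤ) * ((p - n)! : ℤ) - (-1) ^ n

/-- `(X + 0) (X + 1) ⋯ (X + j - 1)` -/
noncomputable def F (R : Type) [CommRing R] (j : ℕ) : R[X] :=
  ∏ l ∈ range j, (X + C ((l : ℕ) : R))

/-- The derivative at `m`, as a natural number. -/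
def E (j m : ℕ) : ℕ := ∑ i ∈ range j, ∏ l ∈ (range j).erase i, (m + l)

theorem F_eval {R : Type} [CommRing R] (j : ℕ) (x : R) :
    (F R j).eval x = ∏ l ∈ range j, (x + (l : R)) := by
  unfold F
  rw [eval_prod]
  simp

theorem dF {R : Type} [CommRing R] (j : ℕ) :
    derivative (F R j) = ∑ i ∈ range j, ∏ l ∈ (range j).erase i, (X + C ((l : ℕ) : R)) := by
  unfold F
  rw [derivative_prod_finset]
  apply Finset.sum_congr rfl
  intro i _
  simp

theorem dF_eval {R : Type} [CommRing R] (j m : ℕ) :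
    (derivative (F R j)).eval (m : R) = (E j m : R) := by
  rw [dF, eval_finsetSum, E]
  push_cast
  apply Finset.sum_congr rfl
  intro i _
  rw [eval_prod]
  simp

theorem F_taylor {R : Type} [CommRing R] (j m : ℕ) (P : R) (hP : P ^ 2 = 0) :
    ∏ l ∈ range j, (((m + l : ℕ) : R) - P) =
      ∏ l ∈ range j, ((m + l : ℕ) : R) - (E j m : R) * P := by
  have h := Polynomial.eval_add_of_sq_eq_zero (F R j) (m : R) (-P) (by rw [neg_sq, hP])
  rw [dF_eval, F_eval, F_eval] at h
  have e1 : ∏ l ∈ range j, (((m + l : ℕ) : R) - P) = ∏ l ∈ range j, ((m : R) + -P + (l : R)) := by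
    apply Finset.prod_congr rfl
    intro l _
    push_cast
    ring
  have e2 : ∏ l ∈ range j, ((m + l : ℕ) : R) = ∏ l ∈ range j, ((m : R) + (l : R)) := by
    apply Finset.prod_congr rfl
    intro l _
    push_cast
    ring
  rw [e1, e2, h]
  ring

/-- The quantity whose value is `1` at the orders. -/
def w (R : Type) [CommRing R] (p n : ℕ) : R := ((n - 1)! : R) * ((p - n)! : R) * (-1) ^ n

theorem w_succ {R : Type} [CommRing R] {p n : ℕ} (h1 : 1 ≤ n) (h2 : n < p) :
    w R p (n + 1) * ((n : R) - (p : R)) = w R p n * (n : R) := by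
  unfold w
  obtain ⟨a, rfl⟩ : ∃ a, n = a + 1 := ⟨n - 1, by omega⟩
  obtain ⟨b, rfl⟩ : ∃ b, p = a + 1 + 1 + b := ⟨p - (a + 2), by omega⟩
  have e1 : a + 1 + 1 - 1 = a + 1 := by omega
  have e2 : a + 1 + 1 + b - (a + 1 + 1) = b := by omega
  have e3 : a + 1 + 1 + b - (a + 1) = b + 1 := by omega
  have e4 : a + 1 - 1 = a := by omega
  rw [e1, e2, e3, e4, Nat.factorial_succ a, Nat.factorial_succ b]
  push_cast
  ring

theorem w_prod {R : Type} [CommRing R] {p m : ℕ} (h1 : 1 ≤ m) (j : ℕ) (h2 : m + j ≤ p) :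
    w R p (m + j) * ∏ l ∈ range j, (((m + l : ℕ) : R) - (p : R)) =
      w R p m * ∏ l ∈ range j, ((m + l : ℕ) : R) := by
  induction j with
  | zero => simp
  | succ j ih =>
    have ih' := ih (by omega)
    rw [Finset.prod_range_succ, Finset.prod_range_succ, ← mul_assoc (w R p m), ← ih']
    have hs := w_succ (R := R) (p := p) (n := m + j) (by omega) (by omega)
    rw [← add_assoc]
    calc w R p (m + j + 1) * ((∏ l ∈ range j, (((m + l : ℕ) : R) - (p : R))) *
          (((m + j : ℕ) : R) - (p : R)))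
        = (w R p (m + j + 1) * (((m + j : ℕ) : R) - (p : R))) *
          ∏ l ∈ range j, (((m + l : ℕ) : R) - (p : R)) := by ring
      _ = (w R p (m + j) * ((m + j : ℕ) : R)) *
          ∏ l ∈ range j, (((m + l : ℕ) : R) - (p : R)) := by rw [hs]
      _ = _ := by ring

theorem w_one {n p : ℕ} (h : IsW n p) : w (ZMod (p ^ 2)) p n = 1 := by
  obtain ⟨_, h1, h2, h3⟩ := h
  have h4 : ((((n - 1)! : ℤ) * ((p - n)! : ℤ) - (-1) ^ n : ℤ) : ZMod (p ^ 2)) = 0 := by
    rw [ZMod.intCast_zmod_eq_zero_iff_dvd]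
    exact_mod_cast h3
  push_cast at h4
  have h5 := sub_eq_zero.mp h4
  unfold w
  rw [h5, ← mul_pow]
  simp

/-- Two orders of the same prime. -/
theorem two {p m j : ℕ} (h1 : IsW m p) (h2 : IsW (m + j) p) : p ∣ E j m := by
  have hp := h1.1
  have hw := w_prod (R := ZMod (p ^ 2)) (p := p) h1.2.1 j h2.2.2.1
  rw [w_one h1, w_one h2, one_mul, one_mul] at hw
  have hP : ((p : ℕ) : ZMod (p ^ 2)) ^ 2 = 0 := by
    rw [← Nat.cast_pow]
    exact ZMod.natCast_self (p ^ 2)
  rw [F_taylor j m _ hP] at hw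
  have h3 : ((E j m * p : ℕ) : ZMod (p ^ 2)) = 0 := by
    push_cast
    have := sub_eq_self.mp hw
    exact this
  rw [ZMod.natCast_eq_zero_iff, pow_two] at h3
  exact Nat.dvd_of_mul_dvd_mul_right hp.pos h3

theorem E_pos {j m : ℕ} (hj : 1 ≤ j) (hm : 1 ≤ m) : 0 < E j m := by
  unfold E
  apply Finset.sum_pos
  · intro i _
    apply Finset.prod_pos
    intro l _
    omega
  · exact ⟨0, Finset.mem_range.mpr hj⟩

theorem E_le {j m : ℕ} (hj : 1 ≤ j) (hm : 1 ≤ m) : E j m ≤ (m + j) ^ j := by
  unfold E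
  calc ∑ i ∈ range j, ∏ l ∈ (range j).erase i, (m + l)
      ≤ ∑ i ∈ range j, (m + j) ^ (j - 1) := by
        apply Finset.sum_le_sum
        intro i hi
        calc ∏ l ∈ (range j).erase i, (m + l) ≤ ∏ l ∈ (range j).erase i, (m + j) := by
              apply Finset.prod_le_prod' 
              intro l hl
              have := Finset.mem_range.mp (Finset.mem_of_mem_erase hl)
              omega
          _ = (m + j) ^ (j - 1) := by
              rw [Finset.prod_const, Finset.card_erase_of_mem hi, Finset.card_range]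
    _ = j * (m + j) ^ (j - 1) := by rw [Finset.sum_const, Finset.card_range, smul_eq_mul]
    _ ≤ (m + j) * (m + j) ^ (j - 1) := by gcongr; omega
    _ = (m + j) ^ j := by
        rw [← pow_succ']
        congr 1
        omega

/-- For a fixed prime and a fixed distance there are few pairs. -/
theorem pairs {p j : ℕ} (hp : p.Prime) (hj : 1 ≤ j) (hjp : j ≤ p) (T : Finset ℕ)
    (hT : ∀ m ∈ T, m < p ∧ p ∣ E j m) : T.card ≤ j - 1 := by
  have : Fact p.Prime := ⟨hp⟩
  set D : (ZMod p)[X] := derivative (F (ZMod p) j) with hD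
  have hD0 : D ≠ 0 := by
    intro h0
    have h1 : D.eval ((0 : ℕ) : ZMod p) = (E j 0 : ZMod p) := dF_eval j 0
    rw [h0, eval_zero] at h1
    have h2 : E j 0 = (j - 1)! := by
      unfold E
      rw [Finset.sum_eq_single 0]
      · have e : (range j).erase 0 = Finset.Ico 1 j := by
          ext x
          simp only [Finset.mem_erase, Finset.mem_range, Finset.mem_Ico]
          omega
        rw [e]
        obtain ⟨k, rfl⟩ : ∃ k, j = k + 1 := ⟨j - 1, by omega⟩
        rw [Nat.add_sub_cancel]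
        clear e h1 h0 hT hjp hj hD D
        induction k with
        | zero => simp
        | succ k ih =>
          rw [Finset.prod_Ico_succ_top (by omega), ih, Nat.factorial_succ]
          ring
      · intro i hi hi0
        apply Finset.prod_eq_zero (i := 0)
        · rw [Finset.mem_erase]
          exact ⟨Ne.symm hi0, Finset.mem_range.mpr hj⟩
        · rfl
      · intro h
        exact absurd (Finset.mem_range.mpr hj) h
    rw [h2] at h1
    have h3 : p ∣ (j - 1)! := by
      rw [← ZMod.natCast_eq_zero_iff]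
      exact h1.symm
    rw [hp.dvd_factorial] at h3
    omega
  have hdeg : D.natDegree ≤ j - 1 := by
    refine (natDegree_derivative_le _).trans ?_
    have : (F (ZMod p) j).natDegree ≤ j := by
      unfold F
      refine (natDegree_prod_le _ _).trans ?_
      simp only [natDegree_X_add_C, Finset.sum_const, Finset.card_range, smul_eq_mul, mul_one,
        le_refl]
    omega
  have hsub : T.image (fun m : ℕ => (m : ZMod p)) ⊆ D.roots.toFinset := by
    intro x hx
    obtain ⟨m, hm, rfl⟩ := Finset.mem_image.mp hx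
    rw [Multiset.mem_toFinset, mem_roots hD0, IsRoot, hD, dF_eval, ZMod.natCast_eq_zero_iff]
    exact (hT m hm).2
  have hinj : Set.InjOn (fun m : ℕ => (m : ZMod p)) (T : Set ℕ) := by
    intro a ha b hb hab
    have h1 := (ZMod.natCast_eq_natCast_iff' a b p).mp hab
    rwa [Nat.mod_eq_of_lt (hT a ha).1, Nat.mod_eq_of_lt (hT b hb).1] at h1
  calc T.card = (T.image (fun m : ℕ => (m : ZMod p))).card := (Finset.card_image_of_injOn hinj).symm
    _ ≤ D.roots.toFinset.card := Finset.card_le_card hsub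
    _ ≤ Multiset.card D.roots := Multiset.toFinset_card_le _
    _ ≤ D.natDegree := card_roots' _
    _ ≤ j - 1 := hdeg

/-- Large primes have at most one small order. -/
theorem large {N p m n : ℕ} (hp : N ^ N ≤ p) (hm : IsW m p) (hn : IsW n p) (hmN : m ≤ N)
    (hnN : n ≤ N) : m = n := by
  wlog h : m ≤ n generalizing m n
  · exact (this hn hm hnN hmN (by omega)).symm
  by_contra hne
  obtain ⟨j, rfl⟩ : ∃ j, n = m + j := ⟨n - m, by omega⟩
  have hj : 1 ≤ j := by omega
  have h1 := two hm hn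
  have hm1 := hm.2.1
  have h2 := Nat.le_of_dvd (E_pos hj hm1) h1
  have h3 : E j m ≤ (m + j) ^ j := E_le hj hm1
  have h4 : (m + j) ^ j ≤ N ^ j := Nat.pow_le_pow_left hnN j
  have h5 : N ^ j < N ^ N := Nat.pow_lt_pow_right (by omega) (by omega)
  omega

end Pool.Agent.Helper77K9.WP
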