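import Pool.Agent.Helper77K9.WP.Basic

/-!
Wilson primes of order `n`: counting.
-/

set_option autoImplicit false

namespace Pool.Agent.Helper77K9.WP

open Finset Nat
open scoped Classical

/-- Sets with few pairs at small distances are small. -/
theorem gap (S : Finset ℕ) {K J : ℕ} (hJ : 1 ≤ J) (hS : ∀ a ∈ S, a ≤ K) :
    S.card ≤ K / J + 1 + ∑ j ∈ Finset.Ico 1 J, (S.filter (fun a => a + j ∈ S)).card := by
  set S1 : Finset ℕ := S.filter (fun a => ∀ j ∈ Finset.Ico 1 J, a + j ∉ S) with hS1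
  have h1 : S1.card ≤ K / J + 1 := by
    calc S1.card ≤ (range (K / J + 1)).card := by
          apply Finset.card_le_card_of_injOn (fun a => a / J)
          · intro a ha
            have ha' := (Finset.mem_filter.mp (Finset.mem_coe.mp ha)).1
            rw [Finset.mem_coe, Finset.mem_range]
            exact Nat.lt_succ_of_le (Nat.div_le_div_right (c := J) (hS a ha'))
          · have key : ∀ a ∈ S1, ∀ b ∈ S1, a / J = b / J → a < b → False := by
              intro a ha b hb hab hlt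
              have h2 := (Finset.mem_filter.mp ha).2
              have h3 := (Finset.mem_filter.mp hb).1
              have h4 : b < a + J := by
                have e1 := Nat.div_add_mod a J
                have e2 := Nat.div_add_mod b J
                have e3 := Nat.mod_lt b (show 0 < J by omega)
                rw [hab] at e1
                omega
              apply h2 (b - a) (by rw [Finset.mem_Ico]; omega)
              rw [show a + (b - a) = b by omega]
              exact h3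
            intro a ha b hb hab
            rcases lt_trichotomy a b with h | h | h
            · exact absurd h (fun h => key a ha b hb hab h)
            · exact h
            · exact absurd h (fun h => key b hb a ha hab.symm h)
      _ = K / J + 1 := Finset.card_range _
  have h2 : S ⊆ S1 ∪ (Finset.Ico 1 J).biUnion (fun j => S.filter (fun a => a + j ∈ S)) := by
    intro a ha
    rw [Finset.mem_union, Finset.mem_biUnion]
    by_cases h : ∀ j ∈ Finset.Ico 1 J, a + j ∉ S
    · exact Or.inl (Finset.mem_filter.mpr ⟨ha, h⟩)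
    · push Not at h
      obtain ⟨j, hj, hj2⟩ := h
      exact Or.inr ⟨j, hj, Finset.mem_filter.mpr ⟨ha, hj2⟩⟩
  calc S.card ≤ _ := Finset.card_le_card h2
    _ ≤ S1.card + _ := Finset.card_union_le _ _
    _ ≤ K / J + 1 + ∑ j ∈ Finset.Ico 1 J, (S.filter (fun a => a + j ∈ S)).card := by
        gcongr
        exact Finset.card_biUnion_le

/-- The orders up to `K` of `p`. -/
noncomputable def ords (p K : ℕ) : Finset ℕ := (Finset.Icc 1 K).filter (fun n => IsW n p)

theorem ords_pairs {p K j : ℕ} (hp : p.Prime) (hj : 1 ≤ j) :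
    ((ords p K).filter (fun a => a + j ∈ ords p K)).card ≤ j - 1 := by
  rcases Finset.eq_empty_or_nonempty ((ords p K).filter (fun a => a + j ∈ ords p K)) with h0 | h0
  · rw [h0]; simp
  · have hjp : j ≤ p := by
      obtain ⟨a, ha⟩ := h0
      have h1 := (Finset.mem_filter.mp (Finset.mem_filter.mp ha).2).2
      have := h1.2.2.1
      omega
    apply pairs hp hj hjp
    intro a ha
    obtain ⟨h1, h2⟩ := Finset.mem_filter.mp ha
    have h3 := (Finset.mem_filter.mp h1).2
    have h4 := (Finset.mem_filter.mp h2).2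
    have h5 := h4.2.2.1
    exact ⟨by omega, two h3 h4⟩

theorem ords_nat {p K J : ℕ} (hp : p.Prime) (hJ : 1 ≤ J) :
    (ords p K).card ≤ K / J + 1 + J * J := by
  refine (gap (ords p K) hJ (fun a ha => (Finset.mem_Icc.mp (Finset.mem_filter.mp ha).1).2)).trans ?_
  gcongr
  calc ∑ j ∈ Finset.Ico 1 J, ((ords p K).filter (fun a => a + j ∈ ords p K)).card
      ≤ ∑ j ∈ Finset.Ico 1 J, J := by
        apply Finset.sum_le_sum
        intro j hj
        rw [Finset.mem_Ico] at hj
        have := ords_pairs (K := K) hp hj.1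
        omega
    _ = (J - 1) * J := by rw [Finset.sum_const, Nat.card_Ico, smul_eq_mul]
    _ ≤ J * J := by gcongr; omega

/-- Cube roots. -/
theorem cube {K : ℕ} (hK : 1 ≤ K) : ∃ J : ℕ, 1 ≤ J ∧
    ((K : ℝ) / J ≤ (K : ℝ) ^ ((2 : ℝ) / 3)) ∧ ((J : ℝ) * J ≤ 4 * (K : ℝ) ^ ((2 : ℝ) / 3)) := by
  have hK0 : (0 : ℝ) < K := by exact_mod_cast hK
  have hK1 : (1 : ℝ) ≤ K := by exact_mod_cast hK
  have h1 : 1 ≤ (K : ℝ) ^ ((1 : ℝ) / 3) := Real.one_le_rpow hK1 (by norm_num)
  refine ⟨⌈(K : ℝ) ^ ((1 : ℝ) / 3)⌉₊, ?_, ?_, ?_⟩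
  · exact Nat.one_le_iff_ne_zero.mpr (Nat.ceil_pos.mpr (by linarith)).ne'
  · have h2 := Nat.le_ceil ((K : ℝ) ^ ((1 : ℝ) / 3))
    calc (K : ℝ) / ⌈(K : ℝ) ^ ((1 : ℝ) / 3)⌉₊ ≤ K / (K : ℝ) ^ ((1 : ℝ) / 3) := by gcongr
      _ = (K : ℝ) ^ ((2 : ℝ) / 3) := by
          rw [div_eq_iff (by positivity), ← Real.rpow_add hK0]
          norm_num
  · have h2 := (Nat.ceil_lt_add_one (show 0 ≤ (K : ℝ) ^ ((1 : ℝ) / 3) by positivity)).le
    have h3 : (⌈(K : ℝ) ^ ((1 : ℝ) / 3)⌉₊ : ℝ) ≤ 2 * (K : ℝ) ^ ((1 : ℝ) / 3) := by linarith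
    calc (⌈(K : ℝ) ^ ((1 : ℝ) / 3)⌉₊ : ℝ) * ⌈(K : ℝ) ^ ((1 : ℝ) / 3)⌉₊
        ≤ (2 * (K : ℝ) ^ ((1 : ℝ) / 3)) * (2 * (K : ℝ) ^ ((1 : ℝ) / 3)) := by gcongr
      _ = 4 * ((K : ℝ) ^ ((1 : ℝ) / 3) * (K : ℝ) ^ ((1 : ℝ) / 3)) := by ring
      _ = 4 * (K : ℝ) ^ ((2 : ℝ) / 3) := by
          rw [← Real.rpow_add hK0]
          norm_num

/-- Every prime has few orders. -/
theorem ords_le {p K : ℕ} (hp : p.Prime) (hK : 1 ≤ K) :
    ((ords p K).card : ℝ) ≤ 6 * (K : ℝ) ^ ((2 : ℝ) / 3) := by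
  obtain ⟨J, hJ, h1, h2⟩ := cube hK
  have h3 := ords_nat (K := K) hp hJ
  have h4 : ((ords p K).card : ℝ) ≤ ((K / J : ℕ) : ℝ) + 1 + (J : ℝ) * J := by exact_mod_cast h3
  have h5 : ((K / J : ℕ) : ℝ) ≤ (K : ℝ) / J := Nat.cast_div_le
  have h6 : 1 ≤ (K : ℝ) ^ ((2 : ℝ) / 3) :=
    Real.one_le_rpow (by exact_mod_cast hK) (by norm_num)
  linarith

/-- Few large primes divide `E j a`. -/
theorem few {x j a : ℕ} (hx : 2 ≤ x) (hj : 1 ≤ j) (ha : 1 ≤ a) (h : a + j ≤ x) (P : Finset ℕ)
    (hP : ∀ p ∈ P, p.Prime ∧ x < p * p ∧ p ∣ E j a) : P.card ≤ 2 * j := by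
  have h1 : ∏ p ∈ P, p ∣ E j a :=
    Finset.prod_primes_dvd _ (fun p hp => Nat.prime_iff.mp (hP p hp).1) (fun p hp => (hP p hp).2.2)
  have h2 : ∏ p ∈ P, p ≤ x ^ j :=
    (Nat.le_of_dvd (E_pos hj ha) h1).trans ((E_le hj ha).trans (Nat.pow_le_pow_left h j))
  have h3 : x ^ P.card ≤ x ^ (2 * j) := by
    calc x ^ P.card = ∏ p ∈ P, x := by rw [Finset.prod_const]
      _ ≤ ∏ p ∈ P, p * p := Finset.prod_le_prod' fun p hp => (hP p hp).2.1.le
      _ = (∏ p ∈ P, p) * ∏ p ∈ P, p := Finset.prod_mul_distrib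
      _ ≤ x ^ j * x ^ j := Nat.mul_le_mul h2 h2
      _ = x ^ (2 * j) := by rw [← pow_add]; congr 1; omega
  exact (Nat.pow_le_pow_iff_right (by omega)).mp h3

/-- The primes up to `x`. -/
noncomputable def prs (x : ℕ) : Finset ℕ := (range (x + 1)).filter Nat.Prime

theorem sum_nat {x N J : ℕ} (hx : 2 ≤ x) (hN : N ≤ x) (hJ : 1 ≤ J) :
    ∑ p ∈ prs x, (ords p N).card ≤
      (prs x).card + (prs x).card * (N / J) + N * (J * J) + N * Nat.sqrt x := by
  set A : Finset ℕ := (prs x).filter (fun p => x < p * p) with hA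
  set B : Finset ℕ := (prs x).filter (fun p => ¬ x < p * p) with hB
  have hsplit : ∑ p ∈ prs x, (ords p N).card =
      ∑ p ∈ A, (ords p N).card + ∑ p ∈ B, (ords p N).card :=
    (Finset.sum_filter_add_sum_filter_not _ _ _).symm
  have hordN : ∀ p, (ords p N).card ≤ N := by
    intro p
    refine (Finset.card_filter_le _ _).trans ?_
    rw [Nat.card_Icc]; omega
  -- small primes
  have hb : ∑ p ∈ B, (ords p N).card ≤ N * Nat.sqrt x := by
    calc ∑ p ∈ B, (ords p N).card ≤ ∑ _p ∈ B, N := Finset.sum_le_sum fun p _ => hordN p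
      _ = B.card * N := by rw [Finset.sum_const, smul_eq_mul]
      _ ≤ Nat.sqrt x * N := by
          gcongr
          calc B.card ≤ (Finset.Icc 1 (Nat.sqrt x)).card := by
                apply Finset.card_le_card
                intro p hp
                obtain ⟨h1, h2⟩ := Finset.mem_filter.mp hp
                have h3 := (Finset.mem_filter.mp h1).2.pos
                rw [Finset.mem_Icc]
                exact ⟨h3, Nat.le_sqrt.mpr (not_lt.mp h2)⟩
            _ = Nat.sqrt x := by rw [Nat.card_Icc]; omega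
      _ = N * Nat.sqrt x := Nat.mul_comm _ _
  -- large primes
  have ha : ∑ p ∈ A, (ords p N).card ≤
      (prs x).card + (prs x).card * (N / J) + N * (J * J) := by
    have h1 : ∀ p ∈ A, (ords p N).card ≤ N / J + 1 + ∑ j ∈ Finset.Ico 1 J,
        ((Finset.Icc 1 N).filter (fun a => a + j ≤ N ∧ p ∣ E j a)).card := by
      intro p hp
      refine (gap (ords p N) hJ
        (fun a ha => (Finset.mem_Icc.mp (Finset.mem_filter.mp ha).1).2)).trans ?_
      gcongr with j hj
      intro a ha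
      obtain ⟨h1, h2⟩ := Finset.mem_filter.mp ha
      obtain ⟨h3, h4⟩ := Finset.mem_filter.mp h1
      obtain ⟨h5, h6⟩ := Finset.mem_filter.mp h2
      rw [Finset.mem_filter]
      exact ⟨h3, (Finset.mem_Icc.mp h5).2, two h4 h6⟩
    have h2 : ∑ p ∈ A, (ords p N).card ≤ A.card * (N / J + 1) + ∑ j ∈ Finset.Ico 1 J,
        ∑ p ∈ A, ((Finset.Icc 1 N).filter (fun a => a + j ≤ N ∧ p ∣ E j a)).card := by
      refine (Finset.sum_le_sum h1).trans (le_of_eq ?_)
      rw [Finset.sum_add_distrib, Finset.sum_const, smul_eq_mul, Finset.sum_comm]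
    have h3 : ∀ j ∈ Finset.Ico 1 J,
        ∑ p ∈ A, ((Finset.Icc 1 N).filter (fun a => a + j ≤ N ∧ p ∣ E j a)).card ≤ N * (2 * j) := by
      intro j hj
      rw [Finset.mem_Ico] at hj
      have e : ∑ p ∈ A, ((Finset.Icc 1 N).filter (fun a => a + j ≤ N ∧ p ∣ E j a)).card =
          ∑ a ∈ Finset.Icc 1 N, (A.filter (fun p => a + j ≤ N ∧ p ∣ E j a)).card := by
        simp only [Finset.card_filter]
        exact Finset.sum_comm
      rw [e]
      calc ∑ a ∈ Finset.Icc 1 N, (A.filter (fun p => a + j ≤ N ∧ p ∣ E j a)).card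
          ≤ ∑ _a ∈ Finset.Icc 1 N, 2 * j := by
            apply Finset.sum_le_sum
            intro a ha
            rw [Finset.mem_Icc] at ha
            by_cases haj : a + j ≤ N
            · apply few hx hj.1 ha.1 (haj.trans hN)
              intro p hp
              obtain ⟨g1, g2⟩ := Finset.mem_filter.mp hp
              obtain ⟨g3, g4⟩ := Finset.mem_filter.mp g1
              exact ⟨(Finset.mem_filter.mp g3).2, g4, g2.2⟩
            · rw [Finset.filter_false_of_mem (fun p _ h => haj h.1)]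
              simp
        _ = N * (2 * j) := by rw [Finset.sum_const, Nat.card_Icc, smul_eq_mul]; simp
    have h4 : ∑ j ∈ Finset.Ico 1 J, N * (2 * j) ≤ N * (J * J) := by
      rw [← Finset.mul_sum]
      gcongr
      clear h3 h2 h1
      induction J with
      | zero => simp
      | succ J ih =>
        rcases Nat.eq_zero_or_pos J with rfl | hJ0
        · simp
        · rw [Finset.sum_Ico_succ_top hJ0]
          have := ih hJ0
          nlinarith
    have h5 : A.card ≤ (prs x).card := Finset.card_filter_le _ _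
    have h7 := Finset.sum_le_sum h3
    calc ∑ p ∈ A, (ords p N).card ≤ A.card * (N / J + 1) + N * (J * J) :=
          h2.trans (by gcongr; exact h7.trans h4)
      _ = A.card * (N / J) + A.card + N * (J * J) := by ring
      _ ≤ (prs x).card * (N / J) + (prs x).card + N * (J * J) := by gcongr
      _ = _ := by ring
  rw [hsplit]
  omega

/-- The mean value. -/
theorem sum_le' {x N : ℕ} (hx : 2 ≤ x) (hN : N ≤ x) :
    ((∑ p ∈ prs x, (ords p N).card : ℕ) : ℝ) ≤
      (prs x).card + 5 * N * ((prs x).card : ℝ) ^ ((2 : ℝ) / 3) + N * √(x : ℝ) := by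
  have hp1 : 1 ≤ (prs x).card := by
    rw [Nat.one_le_iff_ne_zero, Finset.card_ne_zero]
    exact ⟨2, Finset.mem_filter.mpr ⟨Finset.mem_range.mpr (by omega), Nat.prime_two⟩⟩
  obtain ⟨J, hJ, h1, h2⟩ := cube hp1
  have h3 := sum_nat hx hN hJ
  have h4 : ((∑ p ∈ prs x, (ords p N).card : ℕ) : ℝ) ≤
      (prs x).card + (prs x).card * ((N / J : ℕ) : ℝ) + N * ((J : ℝ) * J) +
        N * (Nat.sqrt x : ℝ) := by
    exact_mod_cast h3
  have hN0 : (0 : ℝ) ≤ N := Nat.cast_nonneg _
  have hJ0 : (0 : ℝ) < J := by exact_mod_cast (show 0 < J by omega)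
  have h5 : ((prs x).card : ℝ) * ((N / J : ℕ) : ℝ) ≤
      N * ((prs x).card : ℝ) ^ ((2 : ℝ) / 3) := by
    have : ((N / J : ℕ) : ℝ) ≤ (N : ℝ) / J := Nat.cast_div_le
    calc ((prs x).card : ℝ) * ((N / J : ℕ) : ℝ) ≤ (prs x).card * ((N : ℝ) / J) := by gcongr
      _ = N * (((prs x).card : ℝ) / J) := by ring
      _ ≤ _ := by gcongr
  have h6 : (N : ℝ) * ((J : ℝ) * J) ≤ N * (4 * ((prs x).card : ℝ) ^ ((2 : ℝ) / 3)) := by gcongr
  have h8 : (N : ℝ) * (Nat.sqrt x : ℝ) ≤ N * √(x : ℝ) := by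
    gcongr
    exact Real.nat_sqrt_le_real_sqrt
  linarith

theorem ords_mono {p K L : ℕ} (h : K ≤ L) : ords p K ⊆ ords p L := by
  intro n hn
  obtain ⟨h1, h2⟩ := Finset.mem_filter.mp hn
  rw [Finset.mem_Icc] at h1
  exact Finset.mem_filter.mpr ⟨Finset.mem_Icc.mpr ⟨h1.1, h1.2.trans h⟩, h2⟩

theorem ords_big {p N x : ℕ} (hp : p ≤ x) (h : x ≤ N) : ords p N = ords p x := by
  apply Finset.Subset.antisymm _ (ords_mono h)
  intro n hn
  obtain ⟨h1, h2⟩ := Finset.mem_filter.mp hn
  rw [Finset.mem_Icc] at h1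
  have h3 := h2.2.2.1
  exact Finset.mem_filter.mpr ⟨Finset.mem_Icc.mpr ⟨h1.1, h3.trans hp⟩, h2⟩

theorem sum_le (x N : ℕ) :
    ((∑ p ∈ prs x, (ords p N).card : ℕ) : ℝ) ≤
      (prs x).card + 5 * N * ((prs x).card : ℝ) ^ ((2 : ℝ) / 3) + N * √(x : ℝ) := by
  by_cases hx : 2 ≤ x
  · rcases le_total N x with hN | hN
    · exact sum_le' hx hN
    · have h1 : ∑ p ∈ prs x, (ords p N).card = ∑ p ∈ prs x, (ords p x).card := by
        apply Finset.sum_congr rfl
        intro p hp
        have h2 := (Finset.mem_filter.mp hp).1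
        rw [Finset.mem_range] at h2
        rw [ords_big (show p ≤ x by omega) hN]
      rw [h1]
      refine (sum_le' hx le_rfl).trans ?_
      have : (x : ℝ) ≤ N := by exact_mod_cast hN
      gcongr
  · have h0 : prs x = ∅ := by
      apply Finset.filter_false_of_mem
      intro p hp hpp
      have := hpp.two_le
      rw [Finset.mem_range] at hp
      omega
    rw [h0]
    simp only [Finset.sum_empty, Finset.card_empty, Nat.cast_zero]
    positivity

theorem prs_card (x : ℕ) : (prs x).card = Nat.primeCounting x := by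
  rw [prs, Nat.primeCounting, Nat.primeCounting', Nat.count_eq_card_filter_range]

end Pool.Agent.Helper77K9.WP
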